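import Mathlib
import Pool.Agent.H4.Oa1

set_option autoImplicit false

namespace Pool.Agent.Results.MP_f32e1d_an.NoSup

/-- `E` is a Riesz space (given its group, lattice and module structures). -/
def Riesz (E : Type) [AddCommGroup E] [Lattice E] [Module ℝ E] : Prop :=
  IsOrderedAddMonoid E ∧ PosSMulMono ℝ E

variable {E F : Type} [AddCommGroup E] [Lattice E] [AddCommGroup F] [Lattice F]

/-- orthogonally additive -/
def OA (T : E → F) : Prop := ∀ x y, |x| ⊓ |y| = 0 → T (x + y) = T x + T y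

/-- `R` is the join of `S` and `T` among orthogonally additive maps -/
def IsJoin (S T R : E → F) : Prop :=
  OA R ∧ S ≤ R ∧ T ≤ R ∧ ∀ P, OA P → S ≤ P → T ≤ P → R ≤ P

/-- the set of `S u + T v` over disjoint decompositions `x = u + v` -/
def Vals (S T : E → F) (x : E) : Set F := {z | ∃ u v, |u| ⊓ |v| = 0 ∧ x = u + v ∧ z = S u + T v}

open Pool.Agent.H4.Oa in
theorem result : ∃ (E F : Type) (_ : AddCommGroup E) (_ : Lattice E) (_ : Module ℝ E)
    (_ : AddCommGroup F) (_ : Lattice F) (_ : Module ℝ F) (S T R : E → F) (x : E),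
    Riesz E ∧ Riesz F ∧ OA S ∧ OA T ∧ IsJoin S T R ∧ ¬ ∃ w, IsLUB (Vals S T x) w :=
  ⟨E, F, _, _, _, _, _, _, S, 0, R, 1, ⟨inferInstance, inferInstance⟩,
    ⟨inferInstance, ⟨fun _ ha _ _ h q => mul_le_mul_of_nonneg_left (h q) ha⟩⟩, oS,
    fun _ _ _ => (add_zero _).symm, ⟨oR, SR, R0, least⟩, fun ⟨w, h⟩ => nolub w h⟩

end Pool.Agent.Results.MP_f32e1d_an.NoSup
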